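import Pool.Agent.helper62.HF.SpecW
import Pool.Agent.helper27.MS.MS2

/-!
# Row `hf:PVG` (MP_07c750): the main estimate for general cutoffs
-/

set_option autoImplicit false

open scoped MatrixGroups ContDiff Topology UpperHalfPlane ComplexConjugate
open UpperHalfPlane MeasureTheory Filter Set

namespace Pool.Agent.HV

open Pool.Agent.RS Pool.Agent.MS

/-! ## real analysis -/

theorem PVG_alg (δ Q x y Z : ℝ) (hδ0 : 0 < δ) (hδ : δ ≤ 1 / 100) (hQ : Q ≤ δ ^ 2) (hx0 : 0 ≤ x)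
    (hy0 : 0 ≤ y) (hZ0 : 0 ≤ Z) (hxy : y ≤ 1 + δ - x)
    (h : (1 - δ) * Real.sqrt Z ≤ Real.sqrt (Q * x) + (1 + δ) * Real.sqrt y) : x + Z ≤ 1 + 8 * δ := by
  set u : ℝ := Real.sqrt Z with hu
  set w : ℝ := Real.sqrt y with hw
  have hu0 : 0 ≤ u := Real.sqrt_nonneg _
  have hw0 : 0 ≤ w := Real.sqrt_nonneg _
  have husq : u ^ 2 = Z := Real.sq_sqrt hZ0
  have hwsq : w ^ 2 = y := Real.sq_sqrt hy0
  have hx1 : x ≤ 101 / 100 := by linarith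
  have hw1 : w ≤ 101 / 100 := by
    rw [hw, Real.sqrt_le_iff]
    refine ⟨by norm_num, ?_⟩
    nlinarith
  have h1 : Real.sqrt (Q * x) ≤ 101 / 100 * δ := by
    rw [Real.sqrt_le_iff]
    refine ⟨by positivity, ?_⟩
    have h2 : Q * x ≤ δ ^ 2 * x := mul_le_mul_of_nonneg_right hQ hx0
    have h3 : δ ^ 2 * x ≤ δ ^ 2 * (101 / 100) := mul_le_mul_of_nonneg_left hx1 (sq_nonneg _)
    nlinarith [sq_nonneg δ]
  have h2 : (1 - δ) * u ≤ 101 / 100 * δ + (1 + δ) * w := by linarith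
  have h3 : ((1 - δ) * u) ^ 2 ≤ (101 / 100 * δ + (1 + δ) * w) ^ 2 :=
    pow_le_pow_left₀ (mul_nonneg (by linarith) hu0) h2 2
  have h4 : (1 - δ) ^ 2 * Z ≤ (101 / 100 * δ) ^ 2 + 2 * (101 / 100) * δ * (1 + δ) * w + (1 + δ) ^ 2 * y := by
    rw [← husq, ← hwsq]
    nlinarith [h3]
  have h5 : (101 / 100 * δ) ^ 2 ≤ 11 / 1000 * δ := by nlinarith
  have h6 : 2 * (101 / 100) * δ * (1 + δ) * w ≤ 207 / 100 * δ := by
    have h7 : (1 + δ) * w ≤ 101 / 100 * (101 / 100) := mul_le_mul (by linarith) hw1 hw0 (by norm_num)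
    have h8 : 2 * (101 / 100) * δ * ((1 + δ) * w) ≤ 2 * (101 / 100) * δ * (101 / 100 * (101 / 100)) :=
      mul_le_mul_of_nonneg_left h7 (by positivity)
    nlinarith
  have hy1 : y ≤ 101 / 100 := by linarith
  have h9 : (1 - δ) ^ 2 * (Z - y) ≤ 62 / 10 * δ := by
    have h10 : (1 - δ) ^ 2 * (Z - y) = (1 - δ) ^ 2 * Z - (1 + δ) ^ 2 * y + 4 * δ * y := by ring
    have h11 : 4 * δ * y ≤ 4 * δ * (101 / 100) := mul_le_mul_of_nonneg_left hy1 (by positivity)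
    rw [h10]
    linarith
  have h12 : Z - y ≤ 7 * δ := by
    by_contra hcon
    have h13 : 7 * δ < Z - y := not_le.1 hcon
    have h14 : (98 / 100 : ℝ) ≤ (1 - δ) ^ 2 := by nlinarith
    have h15 : (98 / 100 : ℝ) * (7 * δ) ≤ (1 - δ) ^ 2 * (Z - y) := mul_le_mul h14 h13.le (by positivity) (sq_nonneg _)
    linarith
  linarith

/-! ## the core estimate -/

theorem PVG_core (hAS4 : AS4_stmt) (hFL0 : FL0_stmt) (hGFD : GFD_stmt) (hGBD : GBD_stmt)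
    (Γ : Subgroup SL(2, ℝ)) (F : Set ℍ) (hΓ : QU.SurfaceGroup Γ) (hF : QU.NiceDom Γ F) (c c' : ℍ → ℂ) (hc : TB (1 / 4) c) (hc' : TB (1 / 4) c')
    (r δ t1 Q : ℝ) (φ : ℍ → ℂ) (hr : 0 < r) (hδ0 : 0 < δ) (hδ : δ ≤ 1 / 100) (hφ : EigL Γ (1 / 4 + r ^ 2) φ) (hn : nn F φ = 1)
    (hf : ∀ u : ℍ → ℂ, InvC Γ u → r * qn F c r u ≤ (1 + δ) * nn F u) (hf' : ∀ u : ℍ → ℂ, InvC Γ u → r * qn F c' r u ≤ (1 + δ) * nn F u)
    (hq : |r * qn F c r φ - 1| ≤ δ) (Ψ : SL(2, ℝ) → ℝ) (hΨ : InvG Γ Ψ)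
    (D : Set SL(2, ℝ)) (hD : MeasurableSet D) (hDi : ∀ (γ : Γ) (g : SL(2, ℝ)), (γ : SL(2, ℝ)) * g ∈ D ↔ g ∈ D)
    (hQ0 : 0 ≤ Q) (hQ : Q ≤ δ ^ 2)
    (hOP : ∀ w : SL(2, ℝ) → ℂ, Measurable w → (∃ m : ℝ, ∀ g, ‖w g‖ ≤ m) → (∀ (γ : Γ) g, w ((γ : SL(2, ℝ)) * g) = w g) → (∀ g, w g ≠ 0 → g ∈ D) →
      r ^ 2 * ∫ g in dG F ∩ {g : SL(2, ℝ) | Ψ (g * aM t1) ≠ 0}, ‖Wf (pk r c) (sy Γ F (fun z => conj (pk r c' z)) w) g‖ ^ 2 ∂mG ≤ Q * iR F (fun g => ‖w g‖ ^ 2)) :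
    r * (∫ g in dG F ∩ {g : SL(2, ℝ) | Ψ (g * aM t1) ≠ 0}, ‖Wf (pk r c) φ g‖ ^ 2 ∂mG) +
      r * ∫ h in dG F ∩ D, ‖Wf (pk r c') φ h‖ ^ 2 ∂mG ≤ 1 + 8 * δ := by
  set P : SL(2, ℝ) → ℝ := fun g => ‖Wf (pk r c) φ g‖ ^ 2 with hP
  have hP0 : ∀ g, 0 ≤ P g := fun g => sq_nonneg _
  set B : Set SL(2, ℝ) := {g : SL(2, ℝ) | Ψ (g * aM t1) ≠ 0} with hB
  have hΨc : Continuous fun g : SL(2, ℝ) => Ψ (g * aM t1) := hΨ.1.comp (continuous_mul_const _)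
  have hBm : MeasurableSet B := (isOpen_ne_fun hΨc continuous_const).measurableSet
  have hBi : ∀ (γ : Γ) (g : SL(2, ℝ)), (γ : SL(2, ℝ)) * g ∈ B ↔ g ∈ B := by
    intro γ g
    show Ψ ((γ : SL(2, ℝ)) * g * aM t1) ≠ 0 ↔ Ψ (g * aM t1) ≠ 0
    rw [mul_assoc, hΨ.2]
  have hPint : IntegrableOn P (dG F) mG := EF1_int hGFD hGBD hFL0 r hΓ hF hc (EF1_invC hφ)
  have hsplit : ∫ g in dG F ∩ B, P g ∂mG + ∫ g in dG F \ B, P g ∂mG = qn F c r φ :=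
    integral_inter_add_sdiff hBm hPint
  have hIC : 0 ≤ ∫ g in dG F \ B, P g ∂mG := setIntegral_nonneg_of_ae (Eventually.of_forall fun g => hP0 g)
  have hIB : 0 ≤ ∫ g in dG F ∩ B, P g ∂mG := setIntegral_nonneg_of_ae (Eventually.of_forall fun g => hP0 g)
  have hqq := abs_le.1 hq
  have hsr : r * (∫ g in dG F ∩ B, P g ∂mG) + r * (∫ g in dG F \ B, P g ∂mG) = r * qn F c r φ := by
    rw [← hsplit]
    ring
  have key := hAS4 Γ F c c' r r δ Q φ B D hΓ hF hc hc' hr hδ0.le hφ hn hf hf' hBm hD hBi hDi hQ0 hOP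
  have hII : 0 ≤ r * ∫ h in dG F ∩ D, ‖Wf (pk r c') φ h‖ ^ 2 ∂mG :=
    mul_nonneg hr.le (setIntegral_nonneg_of_ae (Eventually.of_forall fun g => sq_nonneg _))
  refine PVG_alg δ Q (r * ∫ g in dG F ∩ B, P g ∂mG) (r * ∫ g in dG F \ B, P g ∂mG)
    (r * ∫ h in dG F ∩ D, ‖Wf (pk r c') φ h‖ ^ 2 ∂mG) hδ0 hδ hQ (mul_nonneg hr.le hIB) (mul_nonneg hr.le hIC) hII (by linarith) ?_
  refine le_trans (mul_le_mul_of_nonneg_right (by linarith : 1 - δ ≤ r * qn F c r φ) (Real.sqrt_nonneg _)) key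

/-- Row PVG. -/
theorem PVG_proof (hSTB : MS.STB_stmt) (hNM3 : MS.NM3_stmt) (hEQ4 : MS.EQ4_stmt) (hINW : MS.INW_stmt) (hAS4 : AS4_stmt)
    (hOPB : OPB_stmt) (hCV1 : RS.CV1_stmt) (hFL0 : RS.FL0_stmt) (hGFD : RS.GFD_stmt) (hGBD : RS.GBD_stmt) (hGLC : RS.GLC_stmt) :
    PVG_stmt := by
  classical
  intro Γ F β α hΓ hF hβ hα
  obtain ⟨-, -, -, hst, hmono, -⟩ := hSTB
  have hα4 : BA (1 / 4) α := (hmono (1 / 8) (1 / 4) α (by norm_num)).2.1 hα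
  obtain ⟨K, rI, hK, hrI, hI⟩ := hINW Γ F β α hΓ hF hβ hα4
  refine ⟨K, hK, ?_⟩
  have hK0 : 0 < K := by linarith
  intro δ C1 C2 n' s lam Q δ1 l0 J0 Ψ Ψa Ψn Ψl Ψ' Ψa' Ψn' Ψl' Dp hδ0 hδ hC1 hC2 hn0 hs0 hs hlam hQ0 hQ hδ1 hl0 hJ0
    hSF hΨ1 hΨn hΨl hSF' hΨ1' hΨn' hΨl' hDp hDpi hloc hleaf
  have hC10 : 0 < C1 := by linarith
  have hC20 : 0 < C2 := by linarith
  have hlam1 : 1 ≤ lam := by
    refine le_trans ?_ hlam
    rw [le_div_iff₀ hδ0]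
    nlinarith
  have hlam0 : 0 < lam := by linarith
  set T : ℝ := n' + s with hT
  have hT0 : 0 ≤ T := by linarith
  set ε : ℝ := Real.pi / (4 * lam) with hεd
  have hε0 : 0 < ε := by
    rw [hεd]
    positivity
  have hBst : BB (1 / 4) (st (-T) β) := by
    have h1 := hst (1 / 4) (-T) β hβ
    refine (hmono _ (1 / 4) _ ?_).2.2 h1
    have h2 : Real.exp (-T) ≤ 1 := Real.exp_le_one_iff.2 (by linarith)
    nlinarith
  obtain ⟨rN, hrN, hN1⟩ := hNM3 Γ F α β hΓ hF hα4 hβ δ hδ0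
  obtain ⟨rN', hrN', hN2⟩ := hNM3 Γ F α (st (-T) β) hΓ hF hα4 hBst δ hδ0
  obtain ⟨rE, hrE, hE4⟩ := hEQ4 Γ F β α α T hΓ hF hβ hα hα hT0 δ hδ0
  have hΨ0c : Continuous Ψ := hSF.i0.1
  have hDc : Continuous fun g : SL(2, ℝ) => Ψ' (g * aM (-n')) := hSF'.i0.1.comp (continuous_mul_const _)
  obtain ⟨rO, hrO, hOP⟩ := hOPB Γ F β α T ε δ1 l0 Q J0 {g | Ψ g ≠ 0} {g | Ψ' (g * aM (-n')) ≠ 0} Dp hΓ hF hβ hα4 hT0 hε0 hδ1 hl0 hJ0 hQ0
    (isOpen_ne_fun hΨ0c continuous_const).measurableSet hDp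
    (fun γ g => by
      show Ψ ((γ : SL(2, ℝ)) * g) ≠ 0 ↔ Ψ g ≠ 0
      rw [hSF.i0.2])
    hDpi hloc hleaf (δ ^ 2 / 2) (by positivity)
  obtain ⟨R, hR1, hRI, hRE, hRN, hRN', hR⟩ := MS1_r2 K (C1 + C2) δ lam rI (max rE (max (Real.exp (s ^ 2)) rO)) rN rN' hδ0
  refine ⟨R, hR1, ?_⟩
  intro r m t φ hr hφ hnφ hm0 hm1 ht1 ht2 hyp
  have hr0 : 0 < r := by linarith
  have hsq : 10 * δ ≤ Real.sqrt δ := by
    apply Real.le_sqrt_of_sq_le
    nlinarith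
  by_cases hme : m < 4 * δ
  · linarith
  have hme : 4 * δ ≤ m := not_lt.1 hme
  obtain ⟨q1, q2, q3, q4⟩ := hR r hr
  have hsr : s ≤ Real.sqrt (Real.log r) := by
    apply Real.le_sqrt_of_sq_le
    rw [Real.le_log_iff_exp_le hr0]
    exact (le_max_left _ _).trans ((le_max_right _ _).trans (hRE.trans hr))
  set X : ℝ := r / lam with hX
  have hX1 : 1 ≤ X := by
    rw [hX, le_div_iff₀ hlam0]
    linarith
  have hX0 : 0 < X := by linarith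
  set t1 : ℝ := Real.log X with ht1d
  have hexp : Real.exp t1 = X := Real.exp_log hX0
  have ht1' : t1 = Real.log r - Real.log lam := Real.log_div hr0.ne' hlam0.ne'
  have hlogL : 0 ≤ Real.log lam := Real.log_nonneg hlam1
  have hss0 : 0 ≤ Real.sqrt (Real.log r) := Real.sqrt_nonneg _
  have htt : t ≤ t1 := by linarith
  -- (1)
  have hinv := hI r φ (hRI.trans hr) hφ Ψ Ψa Ψn Ψl C1 C1 hSF (fun g => by rw [abs_of_nonneg (hΨ1 g).1]; exact (hΨ1 g).2)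
    hΨn hΨl t t1 (hss0.trans ht1) htt
  have hexpt : Real.exp (-t) ≤ Real.exp (-Real.sqrt (Real.log r)) := Real.exp_le_exp.2 (by linarith)
  have hKlog : ∀ t2 : ℝ, t2 ≤ Real.log r → K * (t2 / r) ≤ δ / 4 := by
    intro t2 ht2
    refine le_trans ?_ q4
    exact mul_le_mul_of_nonneg_left (div_le_div_of_nonneg_right ht2 hr0.le) hK0.le
  have herr : K * (C1 * Real.exp (-t) + (t1 + C1 * Real.exp t1) / r) * nn F φ ≤ δ := by
    rw [hnφ, mul_one, hexp]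
    have h2 : K * (C1 * Real.exp (-t)) ≤ K * (C1 + C2) * Real.exp (-Real.sqrt (Real.log r)) := by
      rw [mul_assoc]
      exact mul_le_mul_of_nonneg_left (mul_le_mul (by linarith) hexpt (Real.exp_pos _).le (by linarith)) hK0.le
    have h3 : K * (t1 / r) ≤ δ / 4 := hKlog t1 (by linarith)
    have h4 : K * (C1 * X / r) ≤ δ / 2 := by
      have e1 : K * (C1 * X / r) = K * C1 / lam := by
        rw [hX]
        field_simp
      rw [e1, div_le_iff₀ hlam0]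
      have h5 : 2 * K * C1 ≤ lam * δ := (div_le_iff₀ hδ0).1 hlam
      linarith
    have h5 : K * (C1 * Real.exp (-t) + (t1 + C1 * X) / r) = K * (C1 * Real.exp (-t)) + K * (t1 / r) + K * (C1 * X / r) := by
      rw [add_div]
      ring
    rw [h5]
    linarith
  -- (2)
  have hinv' := hI r φ (hRI.trans hr) hφ Ψ' Ψa' Ψn' Ψl' C2 C2 hSF' (fun g => by rw [abs_of_nonneg (hΨ1' g).1]; exact (hΨ1' g).2)
    hΨn' hΨl' s t hs0 (hsr.trans ht1)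
  have herr' : K * (C2 * Real.exp (-s) + (t + C2 * Real.exp t) / r) * nn F φ ≤ δ := by
    rw [hnφ, mul_one]
    have h3 : K * (t / r) ≤ δ / 4 := hKlog t (by linarith)
    have h4 : K * (C2 * Real.exp t / r) ≤ K * (C1 + C2) * Real.exp (-Real.sqrt (Real.log r)) := by
      have h6 : Real.exp t ≤ r * Real.exp (-Real.sqrt (Real.log r)) := by
        have h7 : r * Real.exp (-Real.sqrt (Real.log r)) = Real.exp (Real.log r - Real.sqrt (Real.log r)) := by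
          rw [sub_eq_add_neg, Real.exp_add, Real.exp_log hr0]
        rw [h7]
        exact Real.exp_le_exp.2 ht2
      have h8 : C2 * Real.exp t / r ≤ C2 * Real.exp (-Real.sqrt (Real.log r)) := by
        rw [div_le_iff₀ hr0]
        have := mul_le_mul_of_nonneg_left h6 (by linarith : (0 : ℝ) ≤ C2)
        linarith
      calc K * (C2 * Real.exp t / r) ≤ K * (C2 * Real.exp (-Real.sqrt (Real.log r))) := mul_le_mul_of_nonneg_left h8 hK0.le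
        _ ≤ K * ((C1 + C2) * Real.exp (-Real.sqrt (Real.log r))) :=
            mul_le_mul_of_nonneg_left (mul_le_mul_of_nonneg_right (by linarith) (Real.exp_pos _).le) hK0.le
        _ = K * (C1 + C2) * Real.exp (-Real.sqrt (Real.log r)) := by ring
    have h5 : K * (C2 * Real.exp (-s) + (t + C2 * Real.exp t) / r) = K * C2 * Real.exp (-s) + K * (t / r) + K * (C2 * Real.exp t / r) := by
      rw [add_div]
      ring
    rw [h5]
    linarith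
  have haM : ∀ s t, aM (s + t) = aM s * aM t := hGLC.2.2.2.2.2.2.2.2.2.2.1
  have hE4' := hE4 r φ ((le_max_left _ _).trans (hRE.trans hr)) hφ (fun g => Ψ' (g * aM s))
    (hSF'.i0.1.comp (continuous_mul_const _)).measurable
    (fun g => by rw [abs_of_nonneg (hΨ1' _).1]; exact (hΨ1' _).2)
    (fun γ g => by
      show Ψ' ((γ : SL(2, ℝ)) * g * aM s) = Ψ' (g * aM s)
      rw [mul_assoc, hSF'.i0.2])
  have hTs : ∀ g : SL(2, ℝ), g * aM (-T) * aM s = g * aM (-n') := by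
    intro g
    rw [mul_assoc, ← haM]
    congr 2
    rw [hT]
    ring
  simp only [hTs] at hE4'
  rw [hnφ, mul_one] at hE4'
  have hc1 : TB (1 / 4) (pc β α) := (hCV1.2.2 (1 / 4) α β hα4.1 hβ.1).1
  have hc2 : TB (1 / 4) (pc (st (-T) β) α) := (hCV1.2.2 (1 / 4) α (st (-T) β) hα4.1 hBst.1).1
  obtain ⟨hf1, hf2⟩ := hN1 r (hRN.trans hr)
  obtain ⟨hf1', -⟩ := hN2 r (hRN'.trans hr)
  have hqq := hf2 φ hφ
  rw [hnφ, mul_one] at hqq
  have hlogt : Real.log (4 * ε * r / Real.pi) = t1 := by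
    rw [ht1d, hX, hεd]
    congr 1
    have hpi : Real.pi ≠ 0 := Real.pi_ne_zero
    field_simp
  have core := PVG_core hAS4 hFL0 hGFD hGBD Γ F hΓ hF (pc β α) (pc (st (-T) β) α) hc1 hc2 r δ t1 (64 * Q + δ ^ 2 / 2) φ hr0 hδ0 hδ hφ hnφ
    hf1 hf1' hqq Ψ hSF.i0 {g : SL(2, ℝ) | Ψ' (g * aM (-n')) ≠ 0} (isOpen_ne_fun hDc continuous_const).measurableSet
    (fun γ g => by
      show Ψ' ((γ : SL(2, ℝ)) * g * aM (-n')) ≠ 0 ↔ Ψ' (g * aM (-n')) ≠ 0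
      rw [mul_assoc, hSF'.i0.2])
    (by positivity) (by linarith) (fun w hw1 hw2 hw3 hw4 => by
      have h1 := hOP r w ((le_max_right _ _).trans ((le_max_right _ _).trans (hRE.trans hr))) hw1 hw2 hw3 hw4
      rw [hlogt] at h1
      exact h1)
  have h1 := MS2_le hFL0 hGFD hGBD Γ F hΓ hF (pc β α) hc1 r φ hφ Ψ hSF.i0 hΨ1 t1
  have h2 := MS2_le hFL0 hGFD hGBD Γ F hΓ hF (pc (st (-T) β) α) hc2 r φ hφ Ψ' hSF'.i0 hΨ1' (-n')
  have i1 := MS2_int hFL0 hGFD hGBD Γ F hΓ hF (pc β α) hc1 r φ hφ Ψ hSF.i0 hΨ1 t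
  have i2 := MS2_int hFL0 hGFD hGBD Γ F hΓ hF (pc β α) hc1 r φ hφ Ψ' hSF'.i0 hΨ1' t
  have h3 : iR F (fun g => (Ψ (g * aM t) + Ψ' (g * aM t)) * ‖pf β α r φ g‖ ^ 2) =
      iR F (fun g => Ψ (g * aM t) * ‖pf β α r φ g‖ ^ 2) + iR F (fun g => Ψ' (g * aM t) * ‖pf β α r φ g‖ ^ 2) := by
    have h4 : (fun g => (Ψ (g * aM t) + Ψ' (g * aM t)) * ‖pf β α r φ g‖ ^ 2) =
        fun g => Ψ (g * aM t) * ‖pf β α r φ g‖ ^ 2 + Ψ' (g * aM t) * ‖pf β α r φ g‖ ^ 2 := by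
      funext g
      ring
    rw [h4]
    exact integral_add i1 i2
  rw [h3] at hyp
  have g1 := mul_le_mul_of_nonneg_left h1 hr0.le
  have g2 := mul_le_mul_of_nonneg_left h2 hr0.le
  have g3 := mul_le_mul_of_nonneg_left hyp.le hr0.le
  have g4 := abs_le.1 (hinv.trans herr)
  have g5 := abs_le.1 (hinv'.trans herr')
  have g6 := abs_le.1 hE4'
  have g7 := abs_le.1 hqq
  have g8 : (m - 4 * δ) * (1 - δ) ≤ (m - 4 * δ) * (r * qn F (pc β α) r φ) := mul_le_mul_of_nonneg_left (by linarith) (by linarith)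
  have g9 : (m - 4 * δ) * δ ≤ 2 * δ := mul_le_mul_of_nonneg_right (by linarith) hδ0.le
  simp only [pf] at g3 g4 g5 g6
  rw [mul_add] at g3
  have g10 : r * ((m - 4 * δ) * qn F (pc β α) r φ) = (m - 4 * δ) * (r * qn F (pc β α) r φ) := by ring
  rw [g10] at g3
  have g11 : (m - 4 * δ) * (1 - δ) = m - 4 * δ - (m - 4 * δ) * δ := by ring
  rw [g11] at g8
  linarith [g1, g2, g3, g4.1, g5.2, g6.1, g8, g9, core, hsq]

end Pool.Agent.HV
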